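import Mathlib

namespace Pool.Agent.H.MP_cf1990_gt

open Set MeasureTheory Metric Filter Topology
open scoped ENNReal

noncomputable def cen (j : ℕ) : ℂ := ⟨4 * j, 2⟩
noncomputable def wid (j : ℕ) : ℝ := 1 + (1 / 2) ^ j
def ann (j : ℕ) : Set ℂ := ball (cen j) (wid j) \ closedBall (cen j) 1
def V0 : Set ℂ := ⋃ j, ann j

lemma wid_gt (j : ℕ) : 1 < wid j := by
  unfold wid; have : (0:ℝ) < (1 / 2) ^ j := by positivity
  linarith

lemma wid_le (j : ℕ) : wid j ≤ 2 := by
  unfold wid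
  have : ((1:ℝ) / 2) ^ j ≤ 1 := pow_le_one₀ (by norm_num) (by norm_num)
  linarith

lemma isOpen_V0 : IsOpen V0 := isOpen_iUnion fun _ => isOpen_ball.sdiff isClosed_closedBall

lemma vol_ball (a : ℂ) {r : ℝ} (hr : 0 ≤ r) : volume (ball a r) = ENNReal.ofReal (Real.pi * r ^ 2) := by
  rw [Complex.volume_ball, mul_comm Real.pi, ENNReal.ofReal_mul (by positivity),
    ENNReal.ofReal_pow hr, ← NNReal.coe_real_pi, ENNReal.ofReal_coe_nnreal]

lemma vol_cball (a : ℂ) {r : ℝ} (hr : 0 ≤ r) :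
    volume (closedBall a r) = ENNReal.ofReal (Real.pi * r ^ 2) := by
  rw [Complex.volume_closedBall, mul_comm Real.pi, ENNReal.ofReal_mul (by positivity),
    ENNReal.ofReal_pow hr, ← NNReal.coe_real_pi, ENNReal.ofReal_coe_nnreal]

lemma vol_V0 : volume V0 < ⊤ := by
  have h : ∀ j, volume (ann j) ≤ ENNReal.ofReal (3 * Real.pi * (1 / 2) ^ j) := by
    intro j
    unfold ann
    rw [measure_diff (closedBall_subset_ball (wid_gt j)) measurableSet_closedBall.nullMeasurableSet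
      (by rw [vol_cball _ zero_le_one]; exact ENNReal.ofReal_ne_top),
      vol_ball _ (by linarith [wid_gt j]), vol_cball _ zero_le_one,
      ← ENNReal.ofReal_sub _ (by positivity)]
    apply ENNReal.ofReal_le_ofReal
    have h1 : ((1:ℝ) / 2) ^ j ≤ 1 := pow_le_one₀ (by norm_num) (by norm_num)
    have h2 : (0:ℝ) < (1 / 2) ^ j := by positivity
    unfold wid
    have := Real.pi_pos
    nlinarith [mul_nonneg (mul_pos this h2).le (sub_nonneg.2 h1)]
  refine lt_of_le_of_lt ((measure_iUnion_le _).trans (ENNReal.tsum_le_tsum h)) ?_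
  rw [← ENNReal.ofReal_tsum_of_nonneg (fun _ => by positivity)
    (summable_geometric_two.mul_left _)]
  exact ENNReal.ofReal_lt_top

lemma cen_dist {j k : ℕ} (h : j ≠ k) : 4 ≤ dist (cen j) (cen k) := by
  rw [dist_eq_norm]
  refine le_trans ?_ (Complex.abs_re_le_norm _)
  have : (cen j - cen k).re = 4 * ((j:ℝ) - k) := by simp [cen]; ring
  rw [this, abs_mul]
  have h1 : (1:ℝ) ≤ |(j:ℝ) - k| := by
    have : (1:ℤ) ≤ |(j:ℤ) - k| := Int.one_le_abs (by omega)
    exact_mod_cast this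
  rw [abs_of_pos (by norm_num : (0:ℝ) < 4)]
  linarith

def Scales (θ : ℂ → ℂ) (k : ℝ) : Prop := ∀ S : Set ℂ, volume (θ '' S) = ENNReal.ofReal k * volume S

lemma trap (θ : ℂ ≃ₜ ℂ) (h : θ '' V0 ⊆ V0) (j : ℕ) {r : ℝ} (r1 : 1 < r) (r2 : r < wid j)
    {s : Set ℂ} (hs : IsPreconnected s) (hd : Disjoint s V0) (hn : (s ∩ θ '' ball (cen j) r).Nonempty) :
    s ⊆ θ '' ball (cen j) r := by
  refine hs.subset_of_closure_inter_subset (θ.isOpenMap _ isOpen_ball) hn ?_
  rintro z ⟨hz, hzs⟩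
  rw [← θ.image_closure] at hz
  obtain ⟨w, hw, rfl⟩ := hz
  have hw' := closure_ball_subset_closedBall hw
  rcases (mem_closedBall.1 hw').lt_or_eq with h1 | h1
  · exact ⟨w, h1, rfl⟩
  · exfalso
    refine Set.disjoint_left.1 hd hzs (h ⟨w, mem_iUnion.2 ⟨j, ?_, ?_⟩, rfl⟩)
    · rw [mem_ball, h1]; exact r2
    · rw [mem_closedBall, h1]; exact not_le.2 r1

lemma hole_disj (k : ℕ) : Disjoint (closedBall (cen k) 1) V0 := by
  rw [Set.disjoint_left]
  intro z hz hV
  obtain ⟨j, h1, h2⟩ := mem_iUnion.1 hV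
  by_cases e : j = k
  · exact h2 (e ▸ hz)
  · have := cen_dist e
    have t := dist_triangle_left (cen j) (cen k) z
    rw [mem_ball] at h1
    rw [mem_closedBall] at hz
    linarith [wid_le j]

lemma ray_disj {z : ℂ} (hz : ∀ k, wid k ≤ dist z (cen k)) {σ : ℝ} (h1 : 0 ≤ σ * (z.im - 2)) :
    Disjoint ((fun s : ℝ => z + (s * σ : ℝ) * Complex.I) '' Ici 0) V0 := by
  rw [Set.disjoint_left]
  rintro _ ⟨s, hs, rfl⟩ hV
  obtain ⟨j, h2, -⟩ := mem_iUnion.1 hV
  rw [mem_ball] at h2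
  have h3 := hz j
  have h4 : dist z (cen j) ≤ dist (z + (s * σ : ℝ) * Complex.I) (cen j) := by
    rw [Complex.dist_eq_re_im, Complex.dist_eq_re_im]
    apply Real.sqrt_le_sqrt
    simp [cen]
    have : 0 ≤ s := hs
    nlinarith [mul_nonneg this h1, sq_nonneg (s * σ)]
  linarith

lemma ball_sub (θ : ℂ ≃ₜ ℂ) {k : ℝ} (hk : 0 < k) (hs : Scales θ k) (h : θ '' V0 ⊆ V0) (j : ℕ)
    {r : ℝ} (r1 : 1 < r) (r2 : r < wid j) (r3 : k * r ^ 2 < 1) : θ '' ball (cen j) r ⊆ V0 := by
  intro z hz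
  by_contra hV
  by_cases hh : ∃ i, z ∈ closedBall (cen i) 1
  · obtain ⟨i, hi⟩ := hh
    have := measure_mono (μ := volume) (trap θ h j r1 r2 (convex_closedBall _ _).isPreconnected
      (hole_disj i) ⟨z, hi, hz⟩)
    rw [hs, vol_cball _ zero_le_one, vol_ball _ (by linarith), ← ENNReal.ofReal_mul hk.le,
      ENNReal.ofReal_le_ofReal_iff (by positivity)] at this
    nlinarith [Real.pi_pos]
  · have hz' : ∀ i, wid i ≤ dist z (cen i) := by
      intro i
      by_contra hc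
      exact hV (mem_iUnion.2 ⟨i, not_le.1 hc, fun h' => hh ⟨i, h'⟩⟩)
    obtain ⟨σ, hσ, h1⟩ : ∃ σ : ℝ, |σ| = 1 ∧ 0 ≤ σ * (z.im - 2) := by
      rcases le_total 0 (z.im - 2) with h1 | h1
      · exact ⟨1, by simp, by linarith⟩
      · exact ⟨-1, by simp, by linarith⟩
    have sub := trap θ h j r1 r2 (isPreconnected_Ici.image _ (by fun_prop)) (ray_disj hz' h1)
      ⟨z, ⟨0, self_mem_Ici, by simp⟩, hz⟩
    have bd : Bornology.IsBounded (θ '' ball (cen j) r) :=
      ((isCompact_closedBall (cen j) r).image θ.continuous).isBounded.subset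
        (image_mono ball_subset_closedBall)
    obtain ⟨R, hR⟩ := bd.exists_norm_le
    have h2 := hR _ (sub ⟨R + ‖z‖ + 1, by
      have := (norm_nonneg _).trans (hR _ hz)
      simp only [mem_Ici]; positivity, rfl⟩)
    have h3 : ‖(((R + ‖z‖ + 1) * σ : ℝ) : ℂ) * Complex.I‖ ≤
        ‖z + ((R + ‖z‖ + 1) * σ : ℝ) * Complex.I‖ + ‖z‖ := by
      simpa using norm_sub_le (z + ((R + ‖z‖ + 1) * σ : ℝ) * Complex.I) z
    rw [norm_mul, Complex.norm_I, Complex.norm_real, Real.norm_eq_abs, abs_mul, hσ] at h3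
    have := le_abs_self (R + ‖z‖ + 1)
    linarith

lemma one_le (θ : ℂ ≃ₜ ℂ) {k : ℝ} (hk : 0 < k) (hs : Scales θ k) (h : θ '' V0 ⊆ V0) : 1 ≤ k := by
  by_contra hc
  push Not at hc
  have t : Tendsto (fun j : ℕ => k * wid j ^ 2) atTop (𝓝 (k * (1 + 0) ^ 2)) :=
    (((tendsto_pow_atTop_nhds_zero_of_lt_one (by norm_num) (by norm_num)).const_add 1).pow 2).const_mul k
  obtain ⟨J, hJ⟩ := eventually_atTop.1 (t.eventually (gt_mem_nhds (by simpa using hc)))
  have sub : ∀ j, θ '' ball (cen (j + J)) 1 ⊆ V0 := by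
    intro j
    have a := wid_gt (j + J)
    refine (image_mono (ball_subset_ball (by linarith : 1 ≤ (1 + wid (j + J)) / 2))).trans
      (ball_sub θ hk hs h (j + J) (by linarith) (by linarith) ?_)
    refine lt_of_le_of_lt ?_ (hJ (j + J) (by omega))
    gcongr
    linarith
  have dj : Pairwise (Function.onFun Disjoint fun j => θ '' ball (cen (j + J)) 1) := by
    intro i j hij
    rw [Function.onFun, disjoint_image_iff θ.injective]
    exact ball_disjoint_ball (by linarith [cen_dist (show i + J ≠ j + J by omega)])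
  have m := measure_mono (μ := volume) (iUnion_subset sub)
  rw [measure_iUnion dj (fun j => (θ.isOpenMap _ isOpen_ball).measurableSet)] at m
  simp only [hs _, vol_ball _ zero_le_one] at m
  rw [ENNReal.tsum_const_eq_top_of_ne_zero (by
    rw [← ENNReal.ofReal_mul hk.le]
    have := Real.pi_pos
    simp only [ne_eq, ENNReal.ofReal_eq_zero, not_le]
    positivity)] at m
  exact absurd vol_V0 (not_lt.2 m)

lemma dense (θ : ℂ ≃ₜ ℂ) {k : ℝ} (hk : 0 < k) (hs : Scales θ k) (h : θ '' V0 ⊆ V0) :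
    V0 ⊆ closure (θ '' V0) := by
  intro z hz
  by_contra hc
  have op : IsOpen (V0 \ closure (θ '' V0)) := isOpen_V0.sdiff isClosed_closure
  have pos : 0 < volume (V0 \ closure (θ '' V0)) := op.measure_pos _ ⟨z, hz, hc⟩
  have dj : Disjoint (θ '' V0) (V0 \ closure (θ '' V0)) :=
    Set.disjoint_left.2 fun w h1 h2 => h2.2 (subset_closure h1)
  have m := measure_mono (μ := volume) (union_subset h (sdiff_subset (t := closure (θ '' V0))))
  rw [measure_union dj op.measurableSet, hs] at m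
  have h1 : volume V0 ≤ ENNReal.ofReal k * volume V0 :=
    le_mul_of_one_le_left' (ENNReal.one_le_ofReal.2 (one_le θ hk hs h))
  have h2 := ENNReal.lt_add_right vol_V0.ne pos.ne'
  exact absurd (lt_of_lt_of_le h2 ((add_le_add h1 le_rfl).trans m)) (lt_irrefl _)

lemma lf : LocallyFinite ann := by
  intro z
  refine ⟨ball z 1, ball_mem_nhds z one_pos, ?_⟩
  obtain ⟨n, hn⟩ := exists_nat_gt (‖z‖ + 3)
  refine (finite_lt_nat n).subset ?_
  rintro j ⟨w, ⟨h1, -⟩, h2⟩
  rw [mem_ball] at h1 h2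
  have t := dist_triangle_left (cen j) z w
  have a : 4 * (j:ℝ) ≤ ‖cen j‖ := by simpa [cen] using Complex.re_le_norm (cen j)
  have b : ‖cen j‖ ≤ dist (cen j) z + ‖z‖ := by
    rw [dist_eq_norm]; simpa using norm_add_le (cen j - z) z
  have c : (0:ℝ) ≤ j := Nat.cast_nonneg j
  have : (j:ℝ) < n := by linarith [wid_le j]
  exact_mod_cast this

lemma zero_mem : (0:ℂ) ∈ closure V0 := by
  have t : Tendsto (fun s : ℝ => (s:ℂ) * Complex.I) (𝓝[>] 0) (𝓝 0) := by
    have : Continuous fun s : ℝ => (s:ℂ) * Complex.I := by fun_prop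
    simpa using (this.tendsto 0).mono_left nhdsWithin_le_nhds
  refine mem_closure_of_tendsto t ?_
  filter_upwards [Ioo_mem_nhdsGT (show (0:ℝ) < 1 by norm_num)] with s hs
  have d : dist ((s:ℂ) * Complex.I) (cen 0) = 2 - s := by
    rw [Complex.dist_eq_re_im]
    simp [cen]
    rw [Real.sqrt_sq_eq_abs, abs_of_neg (by linarith [hs.2])]; ring
  refine mem_iUnion.2 ⟨0, ?_, ?_⟩
  · rw [mem_ball, d]; simp [wid]; linarith [hs.1]
  · rw [mem_closedBall, d]; linarith [hs.2]

lemma im_nonneg {z : ℂ} (h : z ∈ V0) : 0 ≤ z.im := by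
  obtain ⟨j, h1, -⟩ := mem_iUnion.1 h
  rw [mem_ball, dist_eq_norm] at h1
  have := (abs_le.1 (Complex.abs_im_le_norm (z - cen j))).1
  simp [cen] at this
  simp [cen] at h1
  linarith [wid_le j]

lemma curve {p : ℂ} (hp : p ∈ closure V0) : ∃ γ : ℝ → ℂ, ∃ v : ℂ, v ≠ 0 ∧ γ 0 = p ∧
    HasDerivAt γ v 0 ∧ ∀ t, γ t ∈ closure V0 := by
  rw [V0, lf.closure_iUnion] at hp
  obtain ⟨j, hj⟩ := mem_iUnion.1 hp
  have ne : p - cen j ≠ 0 := by
    have : closure (ann j) ⊆ (ball (cen j) 1)ᶜ :=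
      closure_minimal (fun w hw h => hw.2 (ball_subset_closedBall h)) isOpen_ball.isClosed_compl
    intro h
    exact this hj (by rw [sub_eq_zero.1 h]; exact mem_ball_self one_pos)
  refine ⟨fun t => cen j + (p - cen j) * Complex.exp (t * Complex.I), (p - cen j) * Complex.I,
    mul_ne_zero ne Complex.I_ne_zero, by simp, ?_, fun t => ?_⟩
  · have a : HasDerivAt (fun t : ℝ => (t:ℂ) * Complex.I) Complex.I 0 := by
      simpa using (Complex.ofRealCLM.hasDerivAt (x := 0)).mul_const Complex.I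
    simpa using ((a.cexp).const_mul (p - cen j)).const_add (cen j)
  · refine closure_mono (subset_iUnion ann j) ?_
    refine map_mem_closure (f := fun w => cen j + (w - cen j) * Complex.exp (t * Complex.I))
      (by fun_prop) hj fun w hw => ?_
    have e : dist (cen j + (w - cen j) * Complex.exp (t * Complex.I)) (cen j) = dist w (cen j) := by
      simp [dist_eq_norm, Complex.norm_exp_ofReal_mul_I]
    exact ⟨by rw [mem_ball, e]; exact hw.1, by rw [mem_closedBall, e]; exact hw.2⟩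

noncomputable def sh : ℂ ≃ₜ ℂ where
  toFun z := z + (|z.re| : ℝ) * Complex.I
  invFun z := z - (|z.re| : ℝ) * Complex.I
  left_inv z := by simp
  right_inv z := by simp
  continuous_toFun := by fun_prop
  continuous_invFun := by fun_prop

lemma mp_sh : MeasurePreserving sh volume volume := by
  have h1 : MeasurePreserving (fun p : ℝ × ℝ => (id p.1, (fun a b => b + |a|) p.1 p.2))
      (volume.prod volume) (volume.prod volume) :=
    (MeasurePreserving.id volume).skew_product (g := fun a b : ℝ => b + |a|) (by fun_prop)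
      (Eventually.of_forall fun a => map_add_right_eq_self volume _)
  have h2 := Complex.volume_preserving_equiv_real_prod
  have h3 := (h2.symm _).comp (h1.comp h2)
  have : (sh : ℂ → ℂ) = Complex.measurableEquivRealProd.symm ∘
      (fun p : ℝ × ℝ => (id p.1, (fun a b => b + |a|) p.1 p.2)) ∘ Complex.measurableEquivRealProd := by
    funext z
    apply Complex.ext <;> simp [sh]
  rw [this]
  exact h3

lemma vol_sh_symm (S : Set ℂ) : volume (sh.symm '' S) = volume S := by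
  rw [sh.symm.image_eq_preimage_symm, Homeomorph.symm_symm]
  exact mp_sh.measure_preimage_emb sh.measurableEmbedding S

lemma vol_sh (S : Set ℂ) : volume (sh '' S) = volume S := by
  rw [← vol_sh_symm, image_image]; simp

def Bad (A : Set ℂ) : Prop := ∃ ψ : ℂ ≃ₜ ℂ,
  (∀ z, ∃ L : ℂ →L[ℝ] ℂ, HasFDerivAt ψ L z ∧ Function.Injective L) ∧
  (∃ k : ℝ, 0 < k ∧ Scales ψ k) ∧ ψ '' V0 ⊆ A

lemma bad_V0 : Bad V0 :=
  ⟨Homeomorph.refl ℂ, fun z => ⟨ContinuousLinearMap.id ℝ ℂ, hasFDerivAt_id z, fun _ _ h => h⟩,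
    ⟨1, one_pos, fun S => by simp⟩, by simp⟩

lemma Bad.map {A B : Set ℂ} (h : Bad A) (χ : ℂ ≃ₜ ℂ)
    (h1 : ∀ z, ∃ L : ℂ →L[ℝ] ℂ, HasFDerivAt χ L z ∧ Function.Injective L)
    {k : ℝ} (hk : 0 < k) (h2 : Scales χ k) (h3 : χ '' A ⊆ B) : Bad B := by
  obtain ⟨ψ, a1, ⟨k', hk', a2⟩, a3⟩ := h
  refine ⟨ψ.trans χ, fun z => ?_, ⟨k * k', by positivity, fun S => ?_⟩, ?_⟩
  · obtain ⟨L, b1, b2⟩ := a1 z
    obtain ⟨L', c1, c2⟩ := h1 (ψ z)
    exact ⟨L'.comp L, c1.comp z b1, c2.comp b2⟩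
  · rw [show ⇑(ψ.trans χ) = χ ∘ ψ from rfl, image_comp, h2, a2, ENNReal.ofReal_mul hk.le, mul_assoc]
  · rw [show ⇑(ψ.trans χ) = χ ∘ ψ from rfl, image_comp]
    exact (image_mono a3).trans h3

lemma not_bad_bdd {A : Set ℂ} (h : Bornology.IsBounded A) : ¬ Bad A := by
  rintro ⟨ψ, -, -, a⟩
  have c : IsCompact (ψ ⁻¹' closure A) := ψ.isCompact_preimage.2 h.isCompact_closure
  obtain ⟨R, hR⟩ := c.isBounded.exists_norm_le
  obtain ⟨n, hn⟩ := exists_nat_gt R
  have w := wid_gt n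
  have d : dist (cen n + ((1 + wid n) / 2 : ℝ)) (cen n) = (1 + wid n) / 2 := by
    rw [dist_eq_norm, add_sub_cancel_left, Complex.norm_real, Real.norm_of_nonneg (by linarith)]
  have m : cen n + ((1 + wid n) / 2 : ℝ) ∈ V0 := mem_iUnion.2 ⟨n, by rw [mem_ball, d]; linarith,
    by rw [mem_closedBall, d]; linarith⟩
  have h1 := hR _ (subset_closure (a ⟨_, m, rfl⟩))
  have h2 := Complex.re_le_norm (cen n + ((1 + wid n) / 2 : ℝ))
  have h3 : (cen n + ((1 + wid n) / 2 : ℝ)).re = 4 * n + (1 + wid n) / 2 := by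
    rw [Complex.add_re, Complex.ofReal_re]; rfl
  have c : (0:ℝ) ≤ n := Nat.cast_nonneg n
  linarith

lemma not_bad_sh : ¬ Bad (sh '' V0) := by
  rintro ⟨ψ, a1, ⟨k, hk, a2⟩, a3⟩
  have s1 : Scales (ψ.trans sh.symm) k := fun S => by
    rw [show ⇑(ψ.trans sh.symm) = sh.symm ∘ ψ from rfl, image_comp, vol_sh_symm, a2]
  have s2 : (ψ.trans sh.symm) '' V0 ⊆ V0 := by
    rintro _ ⟨w, hw, rfl⟩
    obtain ⟨v, hv, e⟩ := a3 ⟨w, hw, rfl⟩
    simp only [Homeomorph.trans_apply, ← e, Homeomorph.symm_apply_apply]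
    exact hv
  have z := closure_mono (dense _ hk s1 s2) zero_mem
  rw [closure_closure, ← Homeomorph.image_closure] at z
  obtain ⟨p, hp, e⟩ := z
  have e0 : ψ p = 0 := by
    have := congrArg sh e
    simp only [Homeomorph.trans_apply, Homeomorph.apply_symm_apply] at this
    rw [this]; simp [sh]
  obtain ⟨γ, v, hv, g0, gd, gm⟩ := curve hp
  obtain ⟨L, b1, b2⟩ := a1 p
  have d : HasDerivAt (fun t => ψ (γ t)) (L v) 0 := by
    rw [← g0] at b1
    exact b1.comp_hasDerivAt 0 gd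
  have cone : ∀ t, |(ψ (γ t)).re| ≤ (ψ (γ t)).im := by
    intro t
    have cl : IsClosed {w : ℂ | |w.re| ≤ w.im} := isClosed_le (by fun_prop) (by fun_prop)
    refine closure_minimal (s := sh '' V0) ?_ cl (map_mem_closure ψ.continuous (gm t)
      fun w hw => a3 ⟨w, hw, rfl⟩)
    rintro _ ⟨w, hw, rfl⟩
    have := im_nonneg hw
    simp [sh]
    exact this
  have dre : HasDerivAt (fun t => (ψ (γ t)).re) (L v).re 0 :=
    Complex.reCLM.hasFDerivAt.comp_hasDerivAt 0 d
  have dim : HasDerivAt (fun t => (ψ (γ t)).im) (L v).im 0 :=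
    Complex.imCLM.hasFDerivAt.comp_hasDerivAt 0 d
  have m1 : IsLocalMin (fun t => (ψ (γ t)).im - (ψ (γ t)).re) 0 :=
    Eventually.of_forall fun t => by
      have := (abs_le.1 (cone t)).2
      simp only [g0, e0, Complex.zero_im, Complex.zero_re]; linarith
  have m2 : IsLocalMin (fun t => (ψ (γ t)).im + (ψ (γ t)).re) 0 :=
    Eventually.of_forall fun t => by
      have := (abs_le.1 (cone t)).1
      simp only [g0, e0, Complex.zero_im, Complex.zero_re]; linarith
  have k1 := m1.hasDerivAt_eq_zero (dim.sub dre)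
  have k2 := m2.hasDerivAt_eq_zero (dim.add dre)
  apply hv
  apply b2
  rw [map_zero]
  apply Complex.ext
  · simp only [Complex.zero_re]; linarith
  · simp only [Complex.zero_im]; linarith

lemma det_eq (L : ℂ →L[ℝ] ℂ) : L.det = (L 1).re * (L Complex.I).im - (L 1).im * (L Complex.I).re := by
  rw [ContinuousLinearMap.det, ← LinearMap.det_toMatrix Complex.basisOneI, Matrix.det_fin_two]
  simp [LinearMap.toMatrix_apply]
  ring

lemma scales_of_det (χ : ℂ ≃ₜ ℂ) (h : Differentiable ℝ χ) (h1 : ∀ z, (fderiv ℝ χ z).det = 1) :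
    Scales χ 1 := by
  have m : ∀ S, MeasurableSet S → volume (χ '' S) = volume S := by
    intro S hS
    rw [← lintegral_abs_det_fderiv_eq_addHaar_image volume hS
      (fun x _ => (h x).hasFDerivAt.hasFDerivWithinAt) χ.injective.injOn]
    simp [h1]
  have mp : MeasurePreserving χ.symm volume volume := by
    refine ⟨χ.symm.continuous.measurable, Measure.ext fun S hS => ?_⟩
    rw [Measure.map_apply χ.symm.continuous.measurable hS, ← m S hS, χ.image_eq_preimage_symm]
  intro S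
  rw [χ.image_eq_preimage_symm, mp.measure_preimage_emb χ.symm.measurableEmbedding]
  simp

lemma bad_smul {A : Set ℂ} (h : Bad A) {l : ℝ} (hl : l ≠ 0) : Bad ((fun z => l • z) '' A) := by
  refine h.map (Homeomorph.smulOfNeZero l hl) (fun z => ⟨l • ContinuousLinearMap.id ℝ ℂ,
    (hasFDerivAt_id z).const_smul l, smul_right_injective ℂ hl⟩) (k := l ^ 2) (by positivity)
    (fun S => ?_) subset_rfl
  have := Measure.addHaar_smul (volume : Measure ℂ) l S
  rw [Complex.finrank_real_complex, abs_of_nonneg (sq_nonneg l)] at this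
  exact this

end Pool.Agent.H.MP_cf1990_gt
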